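import Pool.Agent.R951.Cube.Rep

/-!
# Cross-polytopes with a maximal facet give independent homology classes
-/

namespace Pool.Agent.R951.Cube

open Function

universe u

variable (k : Type u) [Field k] {n : ℕ}

/-- the fundamental chain of the cross-polytope with the pairs `x a, y a` -/
def cross {m : ℕ} (x y : Fin m → Vert n) : Fn k n m := fun w =>
  Matrix.det (Matrix.of fun a b => (if w b = x a then (1 : k) else 0) - if w b = y a then 1 else 0)

theorem cross_mem_chains {r m : ℕ} (x y : Fin (m + 1) → Vert n)
    (hsimp : ∀ c : Fin (m + 1) → Bool, IsSimplex r (fun a => if c a then x a else y a)) :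
    cross k x y ∈ chains k n r m := by
  classical
  constructor
  · intro σ v
    unfold cross
    have h := Matrix.det_permute' σ (Matrix.of fun a b =>
      (if v b = x a then (1 : k) else 0) - if v b = y a then 1 else 0)
    rw [← h]
    rfl
  · intro v hv
    unfold cross at hv
    rw [Matrix.det_apply'] at hv
    obtain ⟨σ, _, hσ⟩ := Finset.exists_ne_zero_of_sum_ne_zero hv
    have h1 : ∀ i, v i = x (σ i) ∨ v i = y (σ i) := by
      intro i
      by_contra hc
      push Not at hc
      apply hσ
      rw [Finset.prod_eq_zero (Finset.mem_univ i), mul_zero]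
      rw [Matrix.of_apply, if_neg hc.1, if_neg hc.2, sub_zero]
    have h2 : (fun a => if decide (v (σ⁻¹ a) = x a) then x a else y a) = fun a => v (σ⁻¹ a) := by
      funext a
      have h3 := h1 (σ⁻¹ a)
      have h4 : σ (σ⁻¹ a) = a := σ.apply_symm_apply a
      rw [h4] at h3
      by_cases h5 : v (σ⁻¹ a) = x a
      · rw [decide_eq_true h5, if_pos rfl, h5]
      · rw [decide_eq_false h5, if_neg Bool.false_ne_true]
        exact (h3.resolve_left h5).symm
    have h3 := hsimp (fun a => decide (v (σ⁻¹ a) = x a))
    rw [h2] at h3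
    constructor
    · intro a b hab
      have h4 := @h3.1 (σ a) (σ b) (by
        simp only
        have e1 : σ⁻¹ (σ a) = a := σ.symm_apply_apply a
        have e2 : σ⁻¹ (σ b) = b := σ.symm_apply_apply b
        rw [e1, e2, hab])
      exact σ.injective h4
    · intro a b
      have h4 := h3.2 (σ a) (σ b)
      have e1 : σ⁻¹ (σ a) = a := σ.symm_apply_apply a
      have e2 : σ⁻¹ (σ b) = b := σ.symm_apply_apply b
      simp only at h4
      rw [e1, e2] at h4
      exact h4

theorem cross_boundary {m : ℕ} (x y : Fin (m + 1) → Vert n) :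
    boundary k n m (cross k x y) = 0 := by
  funext w
  change ∑ v : Vert n, cross k x y (Fin.cons v w) = 0
  unfold cross
  simp only [Matrix.det_succ_column_zero, Matrix.of_apply, Fin.cons_zero]
  rw [Finset.sum_comm]
  refine Finset.sum_eq_zero fun j _ => ?_
  have h : ∀ v : Vert n, ((-1 : k) ^ (j : ℕ) * ((if v = x j then (1 : k) else 0) -
      if v = y j then 1 else 0) * ((Matrix.of fun a b =>
        (if (Fin.cons v w : Fin (m + 1) → Vert n) b = x a then (1 : k) else 0) -
          if (Fin.cons v w : Fin (m + 1) → Vert n) b = y a then 1 else 0).submatrix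
            j.succAbove Fin.succ).det) =
      ((if v = x j then (1 : k) else 0) - if v = y j then 1 else 0) * ((-1 : k) ^ (j : ℕ) *
        ((Matrix.of fun a b => (if w b = x (j.succAbove a) then (1 : k) else 0) -
          if w b = y (j.succAbove a) then 1 else 0)).det) := by
    intro v
    have h1 : ((Matrix.of fun a b =>
        (if (Fin.cons v w : Fin (m + 1) → Vert n) b = x a then (1 : k) else 0) -
          if (Fin.cons v w : Fin (m + 1) → Vert n) b = y a then 1 else 0).submatrix
            j.succAbove Fin.succ) =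
        (Matrix.of fun a b => (if w b = x (j.succAbove a) then (1 : k) else 0) -
          if w b = y (j.succAbove a) then 1 else 0) := by
      ext a b
      simp
    rw [h1]
    ring
  rw [Finset.sum_congr rfl fun v _ => h v, ← Finset.sum_mul, Finset.sum_sub_distrib]
  simp

theorem cross_mem_cycles {r m : ℕ} (x y : Fin (m + 1) → Vert n)
    (hsimp : ∀ c : Fin (m + 1) → Bool, IsSimplex r (fun a => if c a then x a else y a)) :
    cross k x y ∈ cycles k n r m := by
  unfold cycles
  split_ifs
  · exact cross_mem_chains k x y hsimp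
  · exact ⟨cross_mem_chains k x y hsimp, cross_boundary k x y⟩

/-- The coefficient of a maximal simplex vanishes on boundaries. -/
theorem coef_boundary {r m : ℕ} (s : Fin (m + 1) → Vert n)
    (hmax : ∀ v : Vert n, (∀ a, hammingDist v (s a) ≤ r) → ∃ a, s a = v)
    {ω : Fn k n (m + 1)} (hω : ω ∈ boundaries k n r m) : ω s = 0 := by
  obtain ⟨f, hf, rfl⟩ := hω
  change ∑ v : Vert n, f (Fin.cons v s) = 0
  refine Finset.sum_eq_zero fun v _ => ?_
  by_contra h
  obtain ⟨h1, h2⟩ := hf.2 _ h
  obtain ⟨a, ha⟩ := hmax v fun a => by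
    have := h2 0 a.succ
    simpa using this
  have := @h1 0 a.succ (by simp [ha])
  exact absurd this.symm (Fin.succ_ne_zero a)

theorem exists_surjection {r m : ℕ} {Γ : Type} [Fintype Γ] [DecidableEq Γ]
    (x y : Γ → Fin (m + 1) → Vert n) (hx : ∀ h, Injective (x h))
    (hmax : ∀ h (v : Vert n), (∀ a, hammingDist v (x h a) ≤ r) → ∃ a, x h a = v)
    (hsimp : ∀ h (c : Fin (m + 1) → Bool), IsSimplex r (fun a => if c a then x h a else y h a))
    (hy : ∀ h a b, y h a ≠ x h b)
    (hsep : ∀ g h, g ≠ h → ∃ b, ∀ a, x g a ≠ x h b ∧ y g a ≠ x h b) :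
    ∃ Φ : Homology k n r m →ₗ[k] (Γ → k), Surjective Φ := by
  classical
  let ψ : Cyc k n r m →ₗ[k] (Γ → k) :=
    { toFun := fun c h => c.1 (x h)
      map_add' := fun _ _ => rfl
      map_smul' := fun _ _ => rfl }
  have hψ : bdryCyc k n r m ≤ LinearMap.ker ψ := by
    intro c hc
    rw [LinearMap.mem_ker]
    funext h
    exact coef_boundary k (x h) (hmax h) hc
  let Φ : Homology k n r m →ₗ[k] (Γ → k) := Submodule.liftQ _ ψ hψ
  have hΦ : ∀ c, Φ (cls k n r m c) = ψ c := fun c => rfl
  refine ⟨Φ, ?_⟩
  let z : Γ → Cyc k n r m := fun g => ⟨_, cross_mem_cycles k (x g) (y g) (hsimp g)⟩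
  have hz : ∀ g, ψ (z g) = Pi.single g 1 := by
    intro g
    funext h
    change cross k (x g) (y g) (x h) = _
    unfold cross
    by_cases hgh : g = h
    · subst hgh
      rw [Pi.single_eq_same]
      have : (Matrix.of fun a b => (if x g b = x g a then (1 : k) else 0) -
          if x g b = y g a then 1 else 0) = (1 : Matrix (Fin (m + 1)) (Fin (m + 1)) k) := by
        ext a b
        have h0 : ¬ (x g b = y g a) := fun h => hy g a b h.symm
        rw [Matrix.of_apply, if_neg h0, sub_zero, Matrix.one_apply]
        by_cases hab : a = b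
        · rw [if_pos (by rw [hab]), if_pos hab]
        · rw [if_neg (fun h => hab (hx g h).symm), if_neg hab]
      rw [this, Matrix.det_one]
    · rw [Pi.single_eq_of_ne (Ne.symm hgh)]
      obtain ⟨b, hb⟩ := hsep g h hgh
      refine Matrix.det_eq_zero_of_column_eq_zero b fun a => ?_
      rw [Matrix.of_apply, if_neg (Ne.symm (hb a).1), if_neg (Ne.symm (hb a).2), sub_zero]
  intro f
  refine ⟨∑ g, f g • cls k n r m (z g), ?_⟩
  rw [map_sum]
  simp only [map_smul, hΦ, hz]
  funext h
  rw [Finset.sum_apply, Finset.sum_eq_single h]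
  · simp
  · intro g _ hg
    simp [Pi.single_eq_of_ne (Ne.symm hg)]
  · intro hh; exact absurd (Finset.mem_univ h) hh

/-- If there are more cross-polytopes than elements of the hyperoctahedral group, then the
homology is not multiplicity-free. -/
theorem not_multiplicityFree [CharZero k] {r m : ℕ} {Γ : Type} [Fintype Γ] [DecidableEq Γ]
    (x y : Γ → Fin (m + 1) → Vert n) (hx : ∀ h, Injective (x h))
    (hmax : ∀ h (v : Vert n), (∀ a, hammingDist v (x h a) ≤ r) → ∃ a, x h a = v)
    (hsimp : ∀ h (c : Fin (m + 1) → Bool), IsSimplex r (fun a => if c a then x h a else y h a))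
    (hy : ∀ h a b, y h a ≠ x h b)
    (hsep : ∀ g h, g ≠ h → ∃ b, ∀ a, x g a ≠ x h b ∧ y g a ≠ x h b)
    (hcard : 2 ^ n * n.factorial < Fintype.card Γ) :
    ¬ MultiplicityFree k (homologyRep k n r m) := by
  intro hm
  obtain ⟨hfin, hle⟩ := card_of_multiplicityFree _ hm
  obtain ⟨Φ, hΦ⟩ := exists_surjection k x y hx hmax hsimp hy hsep
  have h1 := LinearMap.finrank_le_finrank_of_surjective (f := Φ) hΦ
  rw [Module.finrank_fintype_fun_eq_card] at h1
  have h2 := card_Hyp_le n
  omega

end Pool.Agent.R951.Cube
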