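import Mathlib

/-!
# Simplicial homology of the Vietoris-Rips complexes of the hypercube, with the action of the
hyperoctahedral group

An oriented simplicial chain of degree `i` with coefficients in a field `k` is described by its
coefficients: it is the function `f` on the tuples `(v 0, ..., v i)` of vertices whose value is the
coefficient of the oriented simplex `[v 0, ..., v i]`. So `f` is antisymmetric and vanishes on the
tuples which are not (tuples of pairwise different vertices of) a simplex. The coefficient of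
`[w 0, ..., w (i-1)]` in the boundary of `f` is `∑ x, f (x, w 0, ..., w (i-1))`; this is the usual
boundary `∂ [v 0, ..., v i] = ∑ j, (-1) ^ j [v 0, ..., omit v j, ..., v i]`, see
`boundary_oriented` below.
-/

namespace Pool.Agent.R951.Cube

open Function

universe u

/-- the vertices `{0,1}^n` of the hypercube graph -/
abbrev Vert (n : ℕ) := Fin n → Bool

section Group

/-- the hyperoctahedral group, as the group of all maps of `{0,1}^n` of the form
`x ↦ (x (σ i) + a i)_i` (permute the coordinates and flip some of them). -/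
def Hyp (n : ℕ) : Subgroup (Equiv.Perm (Vert n)) where
  carrier := {π | ∃ (σ : Equiv.Perm (Fin n)) (a : Fin n → Bool),
    ∀ x i, π x i = xor (x (σ i)) (a i)}
  mul_mem' := by
    rintro π ρ ⟨σ, a, h⟩ ⟨τ, b, h'⟩
    refine ⟨σ.trans τ, fun i => xor (b (σ i)) (a i), fun x i => ?_⟩
    rw [Equiv.Perm.mul_apply, h, h']
    simp
  one_mem' := ⟨1, fun _ => false, fun x i => by simp⟩
  inv_mem' := by
    rintro π ⟨σ, a, h⟩
    refine ⟨σ⁻¹, fun i => a (σ⁻¹ i), fun x i => ?_⟩
    have h1 := h (π⁻¹ x) (σ⁻¹ i)
    have h2 : π (π⁻¹ x) = x := π.apply_symm_apply x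
    have h3 : σ (σ⁻¹ i) = i := σ.apply_symm_apply i
    rw [h2, h3] at h1
    rw [h1]
    simp

/-- The hyperoctahedral group has at most `2 ^ n * n!` elements. -/
theorem card_Hyp_le (n : ℕ) : Nat.card (Hyp n) ≤ 2 ^ n * n.factorial := by
  classical
  let f : Hyp n → (Fin n → Bool) × Equiv.Perm (Fin n) := fun g =>
    (g.2.choose_spec.choose, g.2.choose)
  have hf : Injective f := by
    intro g g' h
    have h1 := g.2.choose_spec.choose_spec
    have h2 := g'.2.choose_spec.choose_spec
    simp only [f, Prod.mk.injEq] at h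
    ext x i
    rw [h1, h2, h.1, h.2]
  have := Nat.card_le_card_of_injective f hf
  refine this.trans (le_of_eq ?_)
  rw [Nat.card_prod, Nat.card_eq_fintype_card, Nat.card_eq_fintype_card,
    Fintype.card_perm, Fintype.card_fun]
  simp

/-- The elements of the hyperoctahedral group are isometries. -/
theorem dist_Hyp {n : ℕ} (g : Hyp n) (v w : Vert n) :
    hammingDist (g.1 v) (g.1 w) = hammingDist v w := by
  obtain ⟨σ, a, h⟩ := g.2
  unfold hammingDist
  refine Finset.card_bij' (fun i _ => σ i) (fun i _ => σ⁻¹ i) ?_ ?_ ?_ ?_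
  · intro i hi
    simp only [Finset.mem_filter, Finset.mem_univ, true_and] at hi ⊢
    intro h'
    apply hi
    rw [h, h, h']
  · intro i hi
    simp only [Finset.mem_filter, Finset.mem_univ, true_and] at hi ⊢
    intro h'
    apply hi
    rw [h, h] at h'
    simpa using h'
  · intro i _; simp
  · intro i _; simp

end Group

variable (k : Type u) [Field k]

variable {n : ℕ}

/-- the vertices `v 0, ..., v (m-1)` are pairwise different and span a simplex of `X^{n,r}`. -/
def IsSimplex (r : ℕ) {m : ℕ} (v : Fin m → Vert n) : Prop :=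
  Injective v ∧ ∀ a b, hammingDist (v a) (v b) ≤ r

/-- the functions on the `m`-tuples of vertices -/
def Fn (n m : ℕ) : Type u := (Fin m → Vert n) → k

instance instAddFn (n m : ℕ) : AddCommGroup (Fn k n m) :=
  (Pi.addCommGroup : AddCommGroup ((Fin m → Vert n) → k))

instance instModFn (n m : ℕ) : Module k (Fn k n m) :=
  (Pi.module _ _ _ : Module k ((Fin m → Vert n) → k))

/-- `f` is a simplicial chain of `X^{n,r}` with simplices of `m` vertices: an antisymmetric function
on `m`-tuples of vertices, vanishing outside the simplices. -/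
def IsChain (r : ℕ) {m : ℕ} (f : Fn k n m) : Prop :=
  (∀ (σ : Equiv.Perm (Fin m)) (v : Fin m → Vert n),
    f (v ∘ σ) = (Equiv.Perm.sign σ : ℤ) * f v) ∧ ∀ v, f v ≠ 0 → IsSimplex r v

theorem isChain_add {r m : ℕ} {f g : Fn k n m} (hf : IsChain k r f) (hg : IsChain k r g) :
    IsChain k r (f + g) := by
  obtain ⟨h1, h2⟩ := hf
  obtain ⟨h3, h4⟩ := hg
  refine ⟨fun σ v => ?_, fun v hv => ?_⟩
  · change f _ + g _ = _ * (f v + g v)
    rw [h1, h3, mul_add]
  · by_cases hf : f v = 0
    · refine h4 v fun hg => hv ?_
      change f v + g v = 0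
      rw [hf, hg, add_zero]
    · exact h2 v hf

theorem isChain_zero {r m : ℕ} : IsChain k r (0 : Fn k n m) :=
  ⟨fun _ _ => (mul_zero _).symm, fun _ hv => (hv rfl).elim⟩

theorem isChain_smul {r m : ℕ} (c : k) {f : Fn k n m} (hf : IsChain k r f) :
    IsChain k r (c • f) := by
  obtain ⟨h1, h2⟩ := hf
  refine ⟨fun σ v => ?_, fun v hv => ?_⟩
  · change c * f _ = _ * (c * f v)
    rw [h1]; ring
  · refine h2 v fun hf => hv ?_
    change c * f v = 0
    rw [hf, mul_zero]

/-- The simplicial chains of degree `i` of `X^{n,r}`. -/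
def chains (n r i : ℕ) : Submodule k (Fn k n (i + 1)) where
  carrier := {f | IsChain k r f}
  add_mem' := isChain_add k
  zero_mem' := isChain_zero k
  smul_mem' := isChain_smul k

/-- The coefficients of the boundary of the chain `f`. -/
def bdry (n i : ℕ) (f : Fn k n (i + 1)) : Fn k n i := fun w => ∑ x : Vert n, f (Fin.cons x w)

theorem bdry_add (n i : ℕ) (f g : Fn k n (i + 1)) :
    bdry k n i (f + g) = bdry k n i f + bdry k n i g := by
  funext w
  exact Finset.sum_add_distrib

theorem bdry_smul (n i : ℕ) (c : k) (f : Fn k n (i + 1)) :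
    bdry k n i (c • f) = c • bdry k n i f := by
  funext w
  exact (Finset.mul_sum _ _ _).symm

/-- The boundary map, from functions on `(i+1)`-tuples to functions on `i`-tuples. -/
def boundary (n i : ℕ) : Fn k n (i + 1) →ₗ[k] Fn k n i where
  toFun := bdry k n i
  map_add' := bdry_add k n i
  map_smul' := bdry_smul k n i

/-- the simplicial cycles of degree `i` of `X^{n,r}` (all chains for `i = 0`) -/
def cycles (n r i : ℕ) : Submodule k (Fn k n (i + 1)) :=
  if i = 0 then chains k n r i else chains k n r i ⊓ LinearMap.ker (boundary k n i)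

/-- the simplicial boundaries of degree `i` of `X^{n,r}` -/
def boundaries (n r i : ℕ) : Submodule k (Fn k n (i + 1)) :=
  (chains k n r (i + 1)).map (boundary k n (i + 1))

/-- the type of the cycles -/
def Cyc (n r i : ℕ) : Type u := ↥(cycles k n r i)

instance instAddCyc (n r i : ℕ) : AddCommGroup (Cyc k n r i) :=
  Submodule.addCommGroup (cycles k n r i)

instance instModCyc (n r i : ℕ) : Module k (Cyc k n r i) :=
  Submodule.module (cycles k n r i)

/-- the boundaries, as a subspace of the space of cycles (see `boundaries_le_cycles` below) -/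
def bdryCyc (n r i : ℕ) : Submodule k (Cyc k n r i) :=
  (boundaries k n r i).comap (cycles k n r i).subtype

/-- the simplicial homology `H_i(X^{n,r}; k)` -/
def Homology (n r i : ℕ) : Type u := Cyc k n r i ⧸ bdryCyc k n r i

instance instAddHomology (n r i : ℕ) : AddCommGroup (Homology k n r i) :=
  Submodule.Quotient.addCommGroup (bdryCyc k n r i)

instance instModHomology (n r i : ℕ) : Module k (Homology k n r i) :=
  Submodule.Quotient.module (bdryCyc k n r i)

/-! ### the action -/

/-- The action of a permutation of the vertices: it maps the oriented simplex `[v 0, ..., v i]` to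
`[π (v 0), ..., π (v i)]`. -/
def act (m : ℕ) (π : Equiv.Perm (Vert n)) : Fn k n m →ₗ[k] Fn k n m where
  toFun f v := f (fun j => π⁻¹ (v j))
  map_add' _ _ := rfl
  map_smul' _ _ := rfl

theorem boundary_act (i : ℕ) (π : Equiv.Perm (Vert n)) (f : Fn k n (i + 1)) :
    boundary k n i (act k (i + 1) π f) = act k i π (boundary k n i f) := by
  funext w
  change ∑ x : Vert n, f (fun j => π⁻¹ ((Fin.cons x w : Fin (i + 1) → Vert n) j)) =
    ∑ x : Vert n, f (Fin.cons x fun j => π⁻¹ (w j))
  rw [← Equiv.sum_comp π⁻¹ fun x => f (Fin.cons x fun j => π⁻¹ (w j))]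
  refine Finset.sum_congr rfl fun x _ => ?_
  congr 1
  funext j
  refine Fin.cases ?_ (fun j => ?_) j
  · simp
  · simp

theorem act_chains (g : Hyp n) (r i : ℕ) {f : Fn k n (i + 1)}
    (hf : f ∈ chains k n r i) : act k (i + 1) g.1 f ∈ chains k n r i := by
  obtain ⟨h1, h2⟩ := hf
  refine ⟨fun σ v => h1 σ fun j => g.1⁻¹ (v j), fun v hv => ?_⟩
  obtain ⟨h3, h4⟩ := h2 _ hv
  refine ⟨fun a b hab => h3 (by simp only [hab]), fun a b => ?_⟩
  have := h4 a b
  have h5 := dist_Hyp g⁻¹ (v a) (v b)
  have h6 : ((g⁻¹ : Hyp n) : Equiv.Perm (Vert n)) = g.1⁻¹ := rfl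
  rw [h6] at h5
  rw [← h5]
  exact this

theorem act_cycles (g : Hyp n) (r i : ℕ) {f : Fn k n (i + 1)}
    (hf : f ∈ cycles k n r i) : act k (i + 1) g.1 f ∈ cycles k n r i := by
  unfold cycles at hf ⊢
  split_ifs at hf ⊢ with h
  · exact act_chains k g r i hf
  · refine ⟨act_chains k g r i hf.1, ?_⟩
    have := hf.2
    simp only [SetLike.mem_coe, LinearMap.mem_ker] at this ⊢
    rw [boundary_act, this, map_zero]

theorem act_boundaries (g : Hyp n) (r i : ℕ) {f : Fn k n (i + 1)}
    (hf : f ∈ boundaries k n r i) : act k (i + 1) g.1 f ∈ boundaries k n r i := by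
  obtain ⟨y, hy, rfl⟩ := hf
  exact ⟨act k _ g.1 y, act_chains k g r _ hy, boundary_act k _ g.1 y⟩

/-- the action of an element of the hyperoctahedral group on the cycles -/
def actCycles (r i : ℕ) (g : Hyp n) : Cyc k n r i →ₗ[k] Cyc k n r i where
  toFun x := ⟨act k (i + 1) g.1 x.1, act_cycles k g r i x.2⟩
  map_add' _ _ := rfl
  map_smul' _ _ := rfl

theorem actCycles_le (r i : ℕ) (g : Hyp n) :
    bdryCyc k n r i ≤ (bdryCyc k n r i).comap (actCycles k r i g) := by
  intro x hx
  exact act_boundaries k g r i hx

/-- the action of an element of the hyperoctahedral group on the homology -/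
def actHomology (r i : ℕ) (g : Hyp n) : Homology k n r i →ₗ[k] Homology k n r i :=
  Submodule.mapQ _ _ (actCycles k r i g) (actCycles_le k r i g)

/-- the class of a cycle -/
def cls (n r i : ℕ) : Cyc k n r i →ₗ[k] Homology k n r i := (bdryCyc k n r i).mkQ

theorem cls_surjective (n r i : ℕ) : Surjective (cls k n r i) := Submodule.mkQ_surjective _

theorem actHomology_cls (r i : ℕ) (g : Hyp n) (x : Cyc k n r i) :
    actHomology k r i g (cls k n r i x) = cls k n r i (actCycles k r i g x) := rfl

theorem actHomology_one (r i : ℕ) : actHomology k r i (1 : Hyp n) = 1 := by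
  apply LinearMap.ext
  intro x
  obtain ⟨x, rfl⟩ := cls_surjective k n r i x
  rw [actHomology_cls]
  rfl

theorem actHomology_mul (r i : ℕ) (g h : Hyp n) :
    actHomology k r i (g * h) = actHomology k r i g * actHomology k r i h := by
  apply LinearMap.ext
  intro x
  obtain ⟨x, rfl⟩ := cls_surjective k n r i x
  rw [actHomology_cls, Module.End.mul_apply, actHomology_cls, actHomology_cls]
  refine congrArg _ (Subtype.ext ?_)
  funext v
  change x.1 (fun j => (g.1 * h.1)⁻¹ (v j)) = x.1 (fun j => h.1⁻¹ (g.1⁻¹ (v j)))
  rw [mul_inv_rev]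
  rfl

/-- the representation of the hyperoctahedral group on `H_i(X^{n,r}; k)` -/
def homologyRep (n r i : ℕ) : Representation k (Hyp n) (Homology k n r i) where
  toFun g := actHomology k r i g
  map_one' := actHomology_one k r i
  map_mul' g h := actHomology_mul k r i g h

/-- A representation is multiplicity-free if no irreducible representation `σ` occurs in it more
than once, that is, there is no injective equivariant map from `σ ⊕ σ`. -/
def MultiplicityFree {G : Type} [Group G] {M : Type u} [AddCommGroup M] [Module k M]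
    (ρ : Representation k G M) : Prop :=
  ∀ (W : Type u) [AddCommGroup W] [Module k W] (σ : Representation k G W),
    σ.IsIrreducible → ¬ ∃ f : (W × W) →ₗ[k] M, Injective f ∧
      ∀ (g : G) (w : W × W), f (σ g w.1, σ g w.2) = ρ g (f w)

/-! ### the model is the usual one -/

/-- The oriented simplex `[v 0, ..., v (m-1)]`: its value at `w` is the sign of the permutation
which maps `v` to `w`, and zero if there is none. -/
def oriented {m : ℕ} (v : Fin m → Vert n) : Fn k n m := fun w =>
  Matrix.det (Matrix.of fun a b => if w b = v a then (1 : k) else 0)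

theorem sum_Fn {m : ℕ} {ι : Type} (s : Finset ι) (f : ι → Fn k n m) (w : Fin m → Vert n) :
    (∑ j ∈ s, f j) w = ∑ j ∈ s, f j w :=
  Finset.sum_apply w s (fun j => (f j : (Fin m → Vert n) → k))

/-- The boundary of an oriented simplex is given by the usual formula. -/
theorem boundary_oriented {m : ℕ} (v : Fin (m + 1) → Vert n) :
    boundary k n m (oriented k v) =
      ∑ j : Fin (m + 1), ((-1 : k) ^ (j : ℕ)) • oriented k (fun a => v (j.succAbove a)) := by
  funext w
  rw [sum_Fn]
  change ∑ x : Vert n, oriented k v (Fin.cons x w) = ∑ j : Fin (m + 1), (-1 : k) ^ (j : ℕ) *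
    oriented k (fun a => v (j.succAbove a)) w
  unfold oriented
  simp only [Matrix.det_succ_column_zero, Matrix.of_apply, Fin.cons_zero]
  rw [Finset.sum_comm]
  refine Finset.sum_congr rfl fun j _ => ?_
  rw [Finset.sum_eq_single (v j)]
  · rw [if_pos rfl, mul_one]
    congr 1
  · intro x _ hx
    rw [if_neg hx, mul_zero, zero_mul]
  · intro h; exact absurd (Finset.mem_univ _) h

theorem boundary_mem_chains {r i : ℕ} {f : Fn k n (i + 2)}
    (hf : f ∈ chains k n r (i + 1)) : boundary k n (i + 1) f ∈ chains k n r i := by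
  refine ⟨fun σ w => ?_, fun w hw => ?_⟩
  · change ∑ x : Vert n, f (Fin.cons x (w ∘ σ)) = _ * ∑ x : Vert n, f (Fin.cons x w)
    rw [Finset.mul_sum]
    refine Finset.sum_congr rfl fun x _ => ?_
    have h := hf.1 (Equiv.Perm.decomposeFin.symm (0, σ)) (Fin.cons x w)
    rw [Equiv.Perm.decomposeFin.symm_sign] at h
    have h3 : (Fin.cons x w : Fin (i + 2) → Vert n) ∘ (Equiv.Perm.decomposeFin.symm (0, σ)) =
        Fin.cons x (w ∘ σ) := by
      funext j
      refine Fin.cases ?_ (fun j => ?_) j
      · simp
      · simp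
    rw [h3] at h
    rw [h]
    simp
  · have h : ∃ x : Vert n, f (Fin.cons x w) ≠ 0 := by
      by_contra hc
      push Not at hc
      exact hw (Finset.sum_eq_zero fun x _ => hc x)
    obtain ⟨x, hx⟩ := h
    obtain ⟨h1, h2⟩ := hf.2 _ hx
    refine ⟨fun a b hab => ?_, fun a b => ?_⟩
    · have := @h1 a.succ b.succ (by simpa using hab)
      exact Fin.succ_injective _ this
    · have := h2 a.succ b.succ
      simpa using this

/-- The boundary of a boundary vanishes. -/
theorem boundary_boundary {r i : ℕ} {f : Fn k n (i + 2)}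
    (hf : f ∈ chains k n r (i + 1)) : boundary k n i (boundary k n (i + 1) f) = 0 := by
  funext w
  change ∑ x : Vert n, ∑ y : Vert n, f (Fin.cons y (Fin.cons x w)) = 0
  by_cases h2 : (2 : k) = 0
  · -- characteristic two
    have hdiag : ∀ x : Vert n, f (Fin.cons x (Fin.cons x w)) = 0 := by
      intro x
      by_contra h
      have := (hf.2 _ h).1 (a₁ := 0) (a₂ := 1) rfl
      exact absurd this (by simp)
    have hswap : ∀ x y : Vert n, f (Fin.cons y (Fin.cons x w)) = f (Fin.cons x (Fin.cons y w)) := by
      intro x y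
      have h := hf.1 (Equiv.swap 0 1) (Fin.cons x (Fin.cons y w))
      rw [Equiv.Perm.sign_swap (by simp)] at h
      have h3 : (Fin.cons x (Fin.cons y w) : Fin (i + 2) → Vert n) ∘ (Equiv.swap 0 1) =
          Fin.cons y (Fin.cons x w) := by
        funext j
        refine Fin.cases ?_ (fun j => ?_) j
        · simp
        · refine Fin.cases ?_ (fun j => ?_) j
          · simp
          · rw [comp_apply, Equiv.swap_apply_of_ne_of_ne (Fin.succ_ne_zero _)
              (by intro h; exact absurd (Fin.succ_injective _ h) (Fin.succ_ne_zero _))]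
            rfl
      rw [h3] at h
      rw [h]
      have h4 : (-1 : k) = 1 := by
        rw [neg_eq_iff_add_eq_zero, one_add_one_eq_two, h2]
      push_cast
      rw [h4, one_mul]
    rw [← Finset.sum_product']
    refine Finset.sum_involution (fun p _ => (p.2, p.1)) ?_ ?_ ?_ ?_
    · rintro ⟨x, y⟩ _
      simp only
      rw [hswap, ← two_mul, h2, zero_mul]
    · rintro ⟨x, y⟩ _ h heq
      simp only [Prod.mk.injEq] at heq
      rw [heq.1] at h
      exact h (hdiag x)
    · intro p _; simp
    · intro p _; rfl
  · have hswap : ∀ x y : Vert n,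
        f (Fin.cons y (Fin.cons x w)) = -f (Fin.cons x (Fin.cons y w)) := by
      intro x y
      have h := hf.1 (Equiv.swap 0 1) (Fin.cons x (Fin.cons y w))
      rw [Equiv.Perm.sign_swap (by simp)] at h
      have h3 : (Fin.cons x (Fin.cons y w) : Fin (i + 2) → Vert n) ∘ (Equiv.swap 0 1) =
          Fin.cons y (Fin.cons x w) := by
        funext j
        refine Fin.cases ?_ (fun j => ?_) j
        · simp
        · refine Fin.cases ?_ (fun j => ?_) j
          · simp
          · rw [comp_apply, Equiv.swap_apply_of_ne_of_ne (Fin.succ_ne_zero _)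
              (by intro h; exact absurd (Fin.succ_injective _ h) (Fin.succ_ne_zero _))]
            rfl
      rw [h3] at h
      rw [h]
      simp
    have h5 : ∑ x : Vert n, ∑ y : Vert n, f (Fin.cons y (Fin.cons x w)) =
        -∑ x : Vert n, ∑ y : Vert n, f (Fin.cons y (Fin.cons x w)) := by
      conv_lhs => rw [Finset.sum_comm]
      rw [← Finset.sum_neg_distrib]
      refine Finset.sum_congr rfl fun x _ => ?_
      rw [← Finset.sum_neg_distrib]
      refine Finset.sum_congr rfl fun y _ => ?_
      rw [hswap y x]
    have h6 : (2 : k) * ∑ x : Vert n, ∑ y : Vert n, f (Fin.cons y (Fin.cons x w)) = 0 := by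
      rw [two_mul]
      nth_rewrite 1 [h5]
      rw [neg_add_cancel]
    exact (mul_eq_zero.mp h6).resolve_left h2

/-- The boundaries are cycles. -/
theorem boundaries_le_cycles (n r i : ℕ) : boundaries k n r i ≤ cycles k n r i := by
  rintro _ ⟨f, hf, rfl⟩
  unfold cycles
  split_ifs with h
  · exact boundary_mem_chains k hf
  · exact ⟨boundary_mem_chains k hf, boundary_boundary k hf⟩

end Pool.Agent.R951.Cube
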