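import Pool.Agent.R951.Cube.Defs

/-!
# A multiplicity-free representation of a finite group has dimension at most the order
-/

namespace Pool.Agent.R951.Cube

open Function

universe u

section

variable {A : Type u} [Ring A] [IsSemisimpleRing A] {M : Type u} [AddCommGroup M] [Module A M]

/-- A semisimple module without two different isomorphic simple submodules embeds into the
(semisimple) ring. -/
theorem exists_embedding
    (h : ∀ m m' : Submodule A M, IsSimpleModule A m → IsSimpleModule A m' → Disjoint m m' →
      IsEmpty (m ≃ₗ[A] m')) :
    ∃ f : M →ₗ[A] A, Injective f := by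
  classical
  obtain ⟨s, hind, htop, hs⟩ := IsSemisimpleModule.exists_sSupIndep_sSup_simples_eq_top A M
  have hex : ∀ m : s, ∃ I : Submodule A A, Nonempty ((m : Submodule A M) ≃ₗ[A] I) := by
    intro m
    have := hs m.1 m.2
    exact IsSemisimpleRing.exists_linearEquiv_ideal_of_isSimpleModule A (m : Submodule A M)
  choose I hI using hex
  have hsI : ∀ m : s, IsSimpleModule A (I m) := by
    intro m
    have := hs m.1 m.2
    exact IsSimpleModule.congr (hI m).some.symm
  -- the isotypic components
  let c : s → Submodule A A := fun m => isotypicComponent A A (I m)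
  have hc : ∀ m, c m ∈ isotypicComponents A A := fun m => ⟨I m, hsI m, rfl⟩
  have hcinj : Injective c := by
    intro m m' hmm
    by_contra hne
    have hd : Disjoint (m : Submodule A M) (m' : Submodule A M) := by
      have := hind m.2
      refine this.mono_right (le_sSup ?_)
      exact ⟨m'.2, fun h => hne (Subtype.ext h.symm)⟩
    have hiso : Nonempty (I m ≃ₗ[A] I m') := by
      have := hsI m
      have := hsI m'
      have h1 : I m ≤ isotypicComponent A A (I m') := by
        have := Submodule.le_isotypicComponent (I m)
        rw [show isotypicComponent A A (I m) = isotypicComponent A A (I m') from hmm] at this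
        exact this
      have h2 : IsIsotypicOfType A (isotypicComponent A A (I m')) (I m') :=
        IsIsotypicOfType.isotypicComponent A A (I m')
      rw [isIsotypicOfType_submodule_iff] at h2
      exact h2 (I m) h1
    exact (h m.1 m'.1 (hs _ m.2) (hs _ m'.2) hd).elim
      (((hI m).some.trans hiso.some).trans (hI m').some.symm)
  have hindI : iSupIndep I := by
    have h1 : iSupIndep c := by
      have h2 := (sSupIndep_isotypicComponents A A)
      rw [sSupIndep_iff] at h2
      exact h2.comp (f := fun m : s => (⟨c m, hc m⟩ : isotypicComponents A A))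
        (fun a b hab => hcinj (congrArg Subtype.val hab))
    exact h1.mono fun m => Submodule.le_isotypicComponent (I m)
  -- assemble
  have hindM : iSupIndep (fun m : s => (m : Submodule A M)) := (sSupIndep_iff s).mp hind
  have hint : DirectSum.IsInternal (fun m : s => (m : Submodule A M)) := by
    rw [DirectSum.isInternal_submodule_iff_iSupIndep_and_iSup_eq_top]
    refine ⟨hindM, ?_⟩
    rw [← sSup_eq_iSup']
    exact htop
  let e1 : (DirectSum s fun m => (m : Submodule A M)) ≃ₗ[A] M :=
    LinearEquiv.ofBijective (DirectSum.coeLinearMap _) hint
  let e2 : (Π₀ m : s, (m : Submodule A M)) ≃ₗ[A] (Π₀ m : s, I m) :=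
    DFinsupp.mapRange.linearEquiv (fun m => (hI m).some)
  let f3 : (Π₀ m : s, I m) →ₗ[A] A := DFinsupp.lsum ℕ fun m => (I m).subtype
  have hf3 : Injective f3 := hindI.dfinsupp_lsum_injective
  exact ⟨f3.comp (e2.toLinearMap.comp e1.symm.toLinearMap),
    hf3.comp (e2.injective.comp e1.symm.injective)⟩

end

open scoped MonoidAlgebra

set_option backward.isDefEq.respectTransparency false in
theorem card_of_multiplicityFree {k : Type u} [Field k] [CharZero k] {G : Type} [Group G] [Finite G]
    {M : Type u} [AddCommGroup M] [Module k M] (ρ : Representation k G M)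
    (h : MultiplicityFree k ρ) : Module.Finite k M ∧ Module.finrank k M ≤ Nat.card G := by
  have : NeZero (Nat.card G : k) := ⟨by exact_mod_cast Nat.card_pos.ne'⟩
  have key : ∃ f : ρ.asModule →ₗ[k[G]] k[G], Injective f := by
    apply exists_embedding
    intro m m' hm hm' hd
    refine ⟨fun eq => ?_⟩
    let φ : (m × m) →ₗ[k[G]] ρ.asModule :=
      LinearMap.coprod m.subtype (m'.subtype.comp eq.toLinearMap)
    have hφ : Injective φ := by
      rw [← LinearMap.ker_eq_bot, LinearMap.ker_eq_bot']
      rintro ⟨a, b⟩ hab
      have h1 : (a : ρ.asModule) = -((eq b : m') : ρ.asModule) := by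
        have : (a : ρ.asModule) + ((eq b : m') : ρ.asModule) = 0 := hab
        exact eq_neg_of_add_eq_zero_left this
      have h2 : (a : ρ.asModule) ∈ m ⊓ m' := by
        refine ⟨a.2, ?_⟩
        rw [h1]
        exact m'.neg_mem (eq b).2
      rw [hd.eq_bot, Submodule.mem_bot] at h2
      have ha : a = 0 := Subtype.ext h2
      have hb : eq b = 0 := by
        apply Subtype.ext
        rw [h2] at h1
        simpa using h1.symm
      have hb' : b = 0 := by simpa using hb
      rw [ha, hb']; rfl
    have hirr : (Representation.ofModule (k := k) (G := G) (↥m)).IsIrreducible :=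
      (Representation.isSimpleModule_iff_irreducible_ofModule (k := k) (G := G) (↥m)).mp hm
    refine h (RestrictScalars k k[G] (↥m)) (Representation.ofModule (k := k) (G := G) (↥m)) hirr ?_
    let ad := RestrictScalars.addEquiv k k[G] (↥m)
    let f : (RestrictScalars k k[G] (↥m) × RestrictScalars k k[G] (↥m)) →ₗ[k] M :=
      { toFun := fun w => ρ.asModuleEquiv (φ (ad w.1, ad w.2))
        map_add' := by
          intro x y
          have h1 : (ad (x + y).1, ad (x + y).2) = (ad x.1, ad x.2) + (ad y.1, ad y.2) := by
            refine Prod.ext ?_ ?_
            · exact map_add ad x.1 y.1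
            · exact map_add ad x.2 y.2
          rw [h1, map_add, map_add]
        map_smul' := by
          intro c x
          simp only [Prod.smul_fst, Prod.smul_snd, RingHom.id_apply]
          have h1 : ∀ y : RestrictScalars k k[G] (↥m), ad (c • y) =
            (algebraMap k k[G] c) • ad y := fun y => RestrictScalars.addEquiv_map_smul k k[G] (↥m) c y
          rw [h1, h1, ← Prod.smul_mk, map_smul, Representation.asModuleEquiv_map_smul]
          simp }
    refine ⟨f, ?_, ?_⟩
    · intro x y hxy
      have h1 := hφ (ρ.asModuleEquiv.injective hxy)
      have h2 := ad.injective (Prod.ext_iff.mp h1).1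
      have h3 := ad.injective (Prod.ext_iff.mp h1).2
      exact Prod.ext h2 h3
    · intro g w
      have h1 : ∀ y : RestrictScalars k k[G] (↥m),
          ad (Representation.ofModule (k := k) (G := G) (↥m) g y) =
            MonoidAlgebra.of k G g • ad y := by
        intro y
        rfl
      change ρ.asModuleEquiv (φ (ad _, ad _)) = ρ g (ρ.asModuleEquiv (φ (ad w.1, ad w.2)))
      rw [h1, h1, ← Prod.smul_mk, map_smul, Representation.asModuleEquiv_map_smul]
      simp
  obtain ⟨f, hf⟩ := key
  let f' : M →ₗ[k] k[G] :=
    { toFun := fun x => f (ρ.asModuleEquiv.symm x)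
      map_add' := by intro x y; simp
      map_smul' := by
        intro c x
        rw [Representation.asModuleEquiv_symm_map_smul, map_smul, RingHom.id_apply, smul_eq_mul,
          Algebra.smul_def] }
  have hf' : Injective f' := hf.comp ρ.asModuleEquiv.symm.injective
  have : Module.Finite k k[G] := inferInstance
  have := FiniteDimensional.of_injective f' hf'
  refine ⟨this, ?_⟩
  have h1 := LinearMap.finrank_le_finrank_of_injective hf'
  refine h1.trans (le_of_eq ?_)
  rw [Module.finrank_eq_nat_card_basis (MonoidAlgebra.basis G k)]

end Pool.Agent.R951.Cube
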